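import Pool.Agent.H46.BorelPow.BVDefs

set_option autoImplicit false

/-!
# Boolean-valued selection principles for `ω`-covers and `ω`-groupable covers

`𝔹` is a complete Boolean algebra, thought of as `(ω, ∞)`-distributive, so that the Boolean-valued
universe `V^𝔹` has the same reals, the same open sets of reals and the same countable sequences of
them as the ground model.  A `𝔹`-valued set of reals is a function `X : ℝ → 𝔹`.  The definitions
below are the truth values in `𝔹` of the corresponding statements about `X`.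

Relatively open subsets of `X` are the traces `O ∩ X` of open sets `O` of reals.
-/

open Set
open TopologicalSpace (Opens)
open Pool.Agent.H46.BorelPow (tv bvSubset)

namespace Pool.Agent.H59.BGP

variable {𝔹 : Type} [CompleteBooleanAlgebra 𝔹]

/-- truth value of `F ⊆ X`, for a finite set `F` of reals -/
def bvFin (X : ℝ → 𝔹) (F : Finset ℝ) : 𝔹 := ⨅ x ∈ F, X x

/-- truth value of `U ∩ X = V ∩ X` -/
def bvSame (X : ℝ → 𝔹) (U V : Set ℝ) : 𝔹 := ⨅ x, (X x ⇨ tv 𝔹 (x ∈ U ↔ x ∈ V))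

/-- truth value of `{O ∩ X : O ∈ 𝒰} ∈ Ω`, where `𝒰` is a `𝔹`-valued family of open sets: no member
is equal to `X`, and every finite subset of `X` is contained in a member -/
def bvOmega (X : ℝ → 𝔹) (𝒰 : Opens ℝ → 𝔹) : 𝔹 :=
  (⨅ O : Opens ℝ, (𝒰 O ⇨ (bvSubset X (O : Set ℝ))ᶜ)) ⊓
    ⨅ F : Finset ℝ, (bvFin X F ⇨ ⨆ O : Opens ℝ, (𝒰 O ⊓ tv 𝔹 ((↑F : Set ℝ) ⊆ (O : Set ℝ))))

/-- truth value of `{c n ∩ X : n ∈ ℕ} ∈ Ω` -/
def bvOmegaSeq (X : ℝ → 𝔹) (c : ℕ → Set ℝ) : 𝔹 :=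
  (⨅ n, (bvSubset X (c n))ᶜ) ⊓
    ⨅ F : Finset ℝ, (bvFin X F ⇨ tv 𝔹 (∃ n, (↑F : Set ℝ) ⊆ c n))

/-- truth value of `{c n ∩ X : n ∈ ℕ} ∈ 𝒪`: no member is equal to `X`, and the union is `X` -/
def bvOpenSeq (X : ℝ → 𝔹) (c : ℕ → Set ℝ) : 𝔹 :=
  (⨅ n, (bvSubset X (c n))ᶜ) ⊓ bvSubset X (⋃ n, c n)

/-- the union of the `k`-th block of `{c n : n ∈ ℕ}` for the block function `β` -/
def blockUnion (c : ℕ → Set ℝ) (β : ℕ → ℕ) (k : ℕ) : Set ℝ := ⋃ n ∈ {n | β n = k}, c n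

/-- truth value of: the families `{c n ∩ X : β n = k}`, `k ∈ ℕ`, are a partition of
`{c n ∩ X : n ∈ ℕ}` into nonempty finite families -/
def bvBlocks (X : ℝ → 𝔹) (c : ℕ → Set ℝ) (β : ℕ → ℕ) : 𝔹 :=
  (⨅ n, ⨅ m, (bvSame X (c n) (c m) ⇨ tv 𝔹 (β n = β m))) ⊓ tv 𝔹 (Function.Surjective β) ⊓
    ⨅ k, ⨆ N, ⨅ n, (tv 𝔹 (β n = k) ⇨ ⨆ m, (tv 𝔹 (m < N) ⊓ bvSame X (c n) (c m)))

/-- truth value of: `{c n ∩ X : n ∈ ℕ}` is multifinite, i.e. it can be partitioned into infinitely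
many finite covers of `X` -/
def bvMultifinite (X : ℝ → 𝔹) (c : ℕ → Set ℝ) : 𝔹 :=
  ⨆ β : ℕ → ℕ, (bvBlocks X c β ⊓ ⨅ k, bvSubset X (blockUnion c β k))

/-- truth value of: `{c n ∩ X : n ∈ ℕ}` has a partition into finite families `ℱ k`, `k ∈ ℕ`, such
that the sets `⋃ ℱ k` form an `ω`-cover of `X` -/
def bvOmegaBlocks (X : ℝ → 𝔹) (c : ℕ → Set ℝ) : 𝔹 :=
  ⨆ β : ℕ → ℕ, (bvBlocks X c β ⊓ bvOmegaSeq X (blockUnion c β))

/-- truth value of `{c n ∩ X : n ∈ ℕ} ∈ 𝒪^{ω-gp}` -/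
def bvOmegaGroupable (X : ℝ → 𝔹) (c : ℕ → Set ℝ) : 𝔹 :=
  bvOpenSeq X c ⊓ (bvMultifinite X c ⊔ bvOmegaBlocks X c)

/-- truth value of `S₁(Ω, 𝔄)` for `X`, where `A c` is the truth value of
`{c n ∩ X : n ∈ ℕ} ∈ 𝔄` -/
def bvS1Omega (X : ℝ → 𝔹) (A : (ℕ → Set ℝ) → 𝔹) : 𝔹 :=
  ⨅ 𝒰 : ℕ → Opens ℝ → 𝔹, ((⨅ n, bvOmega X (𝒰 n)) ⇨
    ⨆ c : ℕ → Opens ℝ, ((⨅ n, 𝒰 n (c n)) ⊓ A (fun n => (c n : Set ℝ))))

/-! ## Sanity check: the case `𝔹 = Prop`

For `𝔹 = Prop` (two truth values) the definitions above are the literal definitions for the subspace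
`X` of the real line: `sanity_Omega` and `sanity_OmegaGroupable` below. -/


section Defs
variable (α : Type) [TopologicalSpace α]

/-- `𝒪`: the open covers of the space `α`: families of open sets with union `α`, where
(by convention) `α` itself is not a member. -/
def OpenCovers : Set (Set (Set α)) :=
  {U | (∀ u ∈ U, IsOpen u) ∧ univ ∉ U ∧ ⋃₀ U = univ}

/-- `Ω`: the open omega-covers of `α`: open families, not containing `α` itself, such that every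
finite subset of `α` is contained in a member. -/
def Omega : Set (Set (Set α)) :=
  {U | (∀ u ∈ U, IsOpen u) ∧ univ ∉ U ∧ ∀ F : Set α, F.Finite → ∃ u ∈ U, F ⊆ u}

variable {α}

/-- `F 0, F 1, F 2, ...` is a partition of the family `U` into (nonempty) finite sets. -/
def IsFinitePartition (U : Set (Set α)) (F : ℕ → Set (Set α)) : Prop :=
  (∀ n, (F n).Finite) ∧ (∀ n, (F n).Nonempty) ∧ (∀ m n, m ≠ n → Disjoint (F m) (F n)) ∧
    ⋃ n, F n = U

/-- A family is multifinite if it can be partitioned into infinitely many finite covers. -/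
def Multifinite (U : Set (Set α)) : Prop :=
  ∃ F, IsFinitePartition U F ∧ ∀ n, ⋃₀ (F n) = univ

variable (α)

/-- `𝒪^{ω-gp}`: the omega-groupable open covers: open covers that are multifinite or have a
partition into finite sets `F n` such that the sets `⋃₀ F n` form an omega-cover. -/
def OmegaGroupable : Set (Set (Set α)) :=
  {U | U ∈ OpenCovers α ∧
    (Multifinite U ∨ ∃ F, IsFinitePartition U F ∧ range (fun n => ⋃₀ (F n)) ∈ Omega α)}

variable {α}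

/-- The selection principle `S₁(𝒜, ℬ)`. -/
def S1 (𝒜 ℬ : Set (Set (Set α))) : Prop :=
  ∀ U : ℕ → Set (Set α), (∀ n, U n ∈ 𝒜) →
    ∃ u : ℕ → Set α, (∀ n, u n ∈ U n) ∧ range u ∈ ℬ

end Defs

lemma tv_prop (P : Prop) : tv Prop P ↔ P := by simp [tv]

variable (X : Set ℝ)

/-- the trace on `X` -/
def tr (U : Set ℝ) : Set X := Subtype.val ⁻¹' U

lemma tr_eq_univ {U : Set ℝ} : tr X U = univ ↔ X ⊆ U := by
  constructor
  · intro h x hx
    have : (⟨x, hx⟩ : X) ∈ tr X U := by rw [h]; trivial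
    exact this
  · intro h
    exact eq_univ_of_forall fun x => h x.2

lemma bvSubset_prop' {U : Set ℝ} : bvSubset (𝔹 := Prop) (fun x => x ∈ X) U ↔ X ⊆ U := by
  simp [bvSubset, tv, Set.subset_def]

lemma bvSame_prop {U V : Set ℝ} : bvSame (𝔹 := Prop) (fun x => x ∈ X) U V ↔ tr X U = tr X V := by
  simp only [bvSame, iInf_Prop_eq, himp_iff_imp, tv_prop]
  constructor
  · intro h
    ext x
    exact h x x.2
  · intro h x hx
    exact Set.ext_iff.1 h ⟨x, hx⟩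

lemma bvFin_prop {F : Finset ℝ} : bvFin (𝔹 := Prop) (fun x => x ∈ X) F ↔ (↑F : Set ℝ) ⊆ X := by
  simp only [bvFin, iInf_Prop_eq]
  rfl

lemma finite_iff {P : Set ℝ → Prop} : (∀ F : Finset ℝ, (↑F : Set ℝ) ⊆ X → P ↑F) ↔
    ∀ F : Set X, F.Finite → P (Subtype.val '' F) := by
  constructor
  · intro h F hF
    obtain ⟨G, hG⟩ := (hF.image Subtype.val).exists_finset_coe
    rw [← hG]
    refine h G ?_
    rw [hG]
    rintro _ ⟨x, -, rfl⟩
    exact x.2
  · intro h F hF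
    have h1 := h (Subtype.val ⁻¹' (↑F : Set ℝ)) (F.finite_toSet.preimage Subtype.val_injective.injOn)
    rwa [image_preimage_eq_of_subset (by rwa [Subtype.range_coe])] at h1

lemma image_subset_iff_tr {F : Set X} {U : Set ℝ} : Subtype.val '' F ⊆ U ↔ F ⊆ tr X U :=
  image_subset_iff

lemma bvOmega_prop (𝒰 : Opens ℝ → Prop) : bvOmega (𝔹 := Prop) (fun x => x ∈ X) 𝒰 ↔
    (fun O : Opens ℝ => tr X O) '' {O | 𝒰 O} ∈ Omega X := by
  simp only [bvOmega, inf_Prop_eq, iInf_Prop_eq, himp_iff_imp, compl_iff_not, iSup_Prop_eq, tv_prop,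
    bvSubset_prop', bvFin_prop]
  rw [finite_iff X (P := fun F => ∃ O : Opens ℝ, 𝒰 O ∧ F ⊆ O)]
  simp only [image_subset_iff_tr]
  constructor
  · rintro ⟨h1, h2⟩
    refine ⟨?_, ?_, fun F hF => ?_⟩
    · rintro _ ⟨O, -, rfl⟩
      exact O.isOpen.preimage continuous_subtype_val
    · rintro ⟨O, hO, h⟩
      exact h1 O hO ((tr_eq_univ X).1 h)
    · obtain ⟨O, hO, hF⟩ := h2 F hF
      exact ⟨_, ⟨O, hO, rfl⟩, hF⟩
  · rintro ⟨-, h1, h2⟩
    refine ⟨fun O hO h => h1 ⟨O, hO, (tr_eq_univ X).2 h⟩, fun F hF => ?_⟩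
    obtain ⟨_, ⟨O, hO, rfl⟩, hFO⟩ := h2 F hF
    exact ⟨O, hO, hFO⟩

lemma bvOmegaSeq_prop (c : ℕ → Set ℝ) (hc : ∀ n, IsOpen (c n)) :
    bvOmegaSeq (𝔹 := Prop) (fun x => x ∈ X) c ↔ range (fun n => tr X (c n)) ∈ Omega X := by
  simp only [bvOmegaSeq, inf_Prop_eq, iInf_Prop_eq, himp_iff_imp, compl_iff_not, tv_prop,
    bvSubset_prop', bvFin_prop]
  rw [finite_iff X (P := fun F => ∃ n, F ⊆ c n)]
  simp only [image_subset_iff_tr]
  constructor
  · rintro ⟨h1, h2⟩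
    refine ⟨?_, ?_, fun F hF => ?_⟩
    · rintro _ ⟨n, rfl⟩
      exact (hc n).preimage continuous_subtype_val
    · rintro ⟨n, h⟩
      exact h1 n ((tr_eq_univ X).1 h)
    · obtain ⟨n, hF⟩ := h2 F hF
      exact ⟨_, ⟨n, rfl⟩, hF⟩
  · rintro ⟨-, h1, h2⟩
    refine ⟨fun n h => h1 ⟨n, (tr_eq_univ X).2 h⟩, fun F hF => ?_⟩
    obtain ⟨_, ⟨n, rfl⟩, hFO⟩ := h2 F hF
    exact ⟨n, hFO⟩

lemma bvOpenSeq_prop (c : ℕ → Set ℝ) (hc : ∀ n, IsOpen (c n)) :
    bvOpenSeq (𝔹 := Prop) (fun x => x ∈ X) c ↔ range (fun n => tr X (c n)) ∈ OpenCovers X := by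
  simp only [bvOpenSeq, inf_Prop_eq, iInf_Prop_eq, compl_iff_not, bvSubset_prop']
  constructor
  · rintro ⟨h1, h2⟩
    refine ⟨?_, ?_, eq_univ_of_forall fun x => ?_⟩
    · rintro _ ⟨n, rfl⟩
      exact (hc n).preimage continuous_subtype_val
    · rintro ⟨n, h⟩
      exact h1 n ((tr_eq_univ X).1 h)
    · obtain ⟨n, hn⟩ := mem_iUnion.1 (h2 x.2)
      exact ⟨_, ⟨n, rfl⟩, hn⟩
  · rintro ⟨-, h1, h2⟩
    refine ⟨fun n h => h1 ⟨n, (tr_eq_univ X).2 h⟩, fun x hx => ?_⟩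
    have : (⟨x, hx⟩ : X) ∈ ⋃₀ range (fun n => tr X (c n)) := by rw [h2]; trivial
    obtain ⟨_, ⟨n, rfl⟩, hn⟩ := this
    exact mem_iUnion.2 ⟨n, hn⟩

lemma bvBlocks_prop (c : ℕ → Set ℝ) (β : ℕ → ℕ) : bvBlocks (𝔹 := Prop) (fun x => x ∈ X) c β ↔
    (∀ n m, tr X (c n) = tr X (c m) → β n = β m) ∧ Function.Surjective β ∧
      ∀ k, ∃ N, ∀ n, β n = k → ∃ m < N, tr X (c n) = tr X (c m) := by
  simp only [bvBlocks, inf_Prop_eq, iInf_Prop_eq, himp_iff_imp, iSup_Prop_eq, tv_prop, bvSame_prop,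
    and_assoc]

lemma tr_blockUnion (c : ℕ → Set ℝ) (β : ℕ → ℕ) (k : ℕ) :
    tr X (blockUnion c β k) = ⋃₀ ((fun n => tr X (c n)) '' {n | β n = k}) := by
  ext x
  simp only [tr, blockUnion, mem_preimage, mem_iUnion, exists_prop, mem_sUnion, mem_image,
    exists_exists_and_eq_and]

/-- block functions and partitions into finite families -/
lemma blocks_iff (c : ℕ → Set ℝ) (Q : (ℕ → Set X) → Prop) :
    (∃ β : ℕ → ℕ, bvBlocks (𝔹 := Prop) (fun x => x ∈ X) c β ∧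
      Q (fun k => tr X (blockUnion c β k))) ↔
    ∃ F, IsFinitePartition (range (fun n => tr X (c n))) F ∧ Q (fun k => ⋃₀ (F k)) := by
  classical
  constructor
  · rintro ⟨β, hβ, hQ⟩
    rw [bvBlocks_prop] at hβ
    obtain ⟨h1, h2, h3⟩ := hβ
    refine ⟨fun k => (fun n => tr X (c n)) '' {n | β n = k}, ⟨fun k => ?_, fun k => ?_,
      fun k l hkl => ?_, ?_⟩, ?_⟩
    · obtain ⟨N, hN⟩ := h3 k
      refine ((finite_Iio N).image (fun n => tr X (c n))).subset ?_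
      rintro _ ⟨n, hn, rfl⟩
      obtain ⟨m, hm, h⟩ := hN n hn
      exact ⟨m, hm, h.symm⟩
    · obtain ⟨n, hn⟩ := h2 k
      exact ⟨_, n, hn, rfl⟩
    · rw [disjoint_left]
      rintro _ ⟨n, hn, rfl⟩ ⟨m, hm, h⟩
      have h4 : β n = k := hn
      have h5 : β m = l := hm
      exact hkl (by rw [← h4, ← h5]; exact h1 n m h.symm)
    · ext u
      simp only [mem_iUnion, mem_image, mem_ofPred_eq, mem_range]
      constructor
      · rintro ⟨k, n, -, rfl⟩; exact ⟨n, rfl⟩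
      · rintro ⟨n, rfl⟩; exact ⟨β n, n, rfl, rfl⟩
    · have : (fun k => tr X (blockUnion c β k)) =
          fun k => ⋃₀ ((fun n => tr X (c n)) '' {n | β n = k}) := funext fun k => tr_blockUnion X c β k
      rw [← this]; exact hQ
  · rintro ⟨F, ⟨h1, h2, h3, h4⟩, hQ⟩
    have hex : ∀ n, ∃ k, tr X (c n) ∈ F k := by
      intro n
      have : tr X (c n) ∈ ⋃ k, F k := by rw [h4]; exact mem_range_self n
      exact mem_iUnion.1 this
    choose β hβ using hex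
    have huniq : ∀ n k, tr X (c n) ∈ F k → β n = k := by
      intro n k hk
      by_contra hne
      exact disjoint_left.1 (h3 _ _ hne) (hβ n) hk
    have hF : ∀ k, F k = (fun n => tr X (c n)) '' {n | β n = k} := by
      intro k
      ext u
      constructor
      · intro hu
        have : u ∈ range (fun n => tr X (c n)) := by rw [← h4]; exact mem_iUnion.2 ⟨k, hu⟩
        obtain ⟨n, rfl⟩ := this
        exact ⟨n, huniq n k hu, rfl⟩
      · rintro ⟨n, hn, rfl⟩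
        have h5 : β n = k := hn
        rw [← h5]; exact hβ n
    refine ⟨β, (bvBlocks_prop X c β).2 ⟨?_, ?_, ?_⟩, ?_⟩
    · intro n m hnm
      exact huniq n _ (hnm ▸ hβ m)
    · intro k
      obtain ⟨u, hu⟩ := h2 k
      rw [hF k] at hu
      obtain ⟨n, hn, -⟩ := hu
      exact ⟨n, hn⟩
    · intro k
      have hidx : ∀ u ∈ F k, ∃ m, tr X (c m) = u := by
        intro u hu
        rw [hF k] at hu
        obtain ⟨n, -, h⟩ := hu
        exact ⟨n, h⟩
      choose! ι hι using hidx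
      obtain ⟨N, hN⟩ := ((h1 k).image ι).bddAbove
      refine ⟨N + 1, fun n hn => ⟨ι (tr X (c n)), ?_, ?_⟩⟩
      · have h5 : ι (tr X (c n)) ≤ N := hN ⟨_, hn ▸ hβ n, rfl⟩
        omega
      · exact (hι _ (hn ▸ hβ n)).symm
    · have : (fun k => tr X (blockUnion c β k)) = fun k => ⋃₀ (F k) := by
        funext k
        rw [tr_blockUnion, hF k]
      rw [this]; exact hQ

lemma isOpen_blockUnion {c : ℕ → Set ℝ} (hc : ∀ n, IsOpen (c n)) (β : ℕ → ℕ) (k : ℕ) :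
    IsOpen (blockUnion c β k) := isOpen_biUnion fun n _ => hc n

lemma bvOmegaGroupable_prop (c : ℕ → Set ℝ) (hc : ∀ n, IsOpen (c n)) :
    bvOmegaGroupable (𝔹 := Prop) (fun x => x ∈ X) c ↔
      range (fun n => tr X (c n)) ∈ OmegaGroupable X := by
  simp only [bvOmegaGroupable, bvMultifinite, bvOmegaBlocks, inf_Prop_eq, sup_Prop_eq, iSup_Prop_eq,
    iInf_Prop_eq, bvOpenSeq_prop X c hc, bvSubset_prop']
  have e1 : (∃ β : ℕ → ℕ, bvBlocks (𝔹 := Prop) (fun x => x ∈ X) c β ∧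
      ∀ k, X ⊆ blockUnion c β k) ↔ Multifinite (range (fun n => tr X (c n))) := by
    have := blocks_iff X c (fun G => ∀ k, G k = univ)
    simp only [tr_eq_univ] at this
    exact this
  have e2 : (∃ β : ℕ → ℕ, bvBlocks (𝔹 := Prop) (fun x => x ∈ X) c β ∧
      bvOmegaSeq (𝔹 := Prop) (fun x => x ∈ X) (blockUnion c β)) ↔
      ∃ F, IsFinitePartition (range (fun n => tr X (c n))) F ∧
        range (fun k => ⋃₀ (F k)) ∈ Omega X := by
    rw [← blocks_iff X c (fun G => range G ∈ Omega X)]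
    refine exists_congr fun β => and_congr_right fun _ => ?_
    exact bvOmegaSeq_prop X _ (isOpen_blockUnion hc β)
  rw [e1, e2]
  rfl

lemma S1_prop (A : (ℕ → Set ℝ) → Prop) (𝔄 : Set (Set (Set X)))
    (hA : ∀ c : ℕ → Opens ℝ, A (fun n => (c n : Set ℝ)) ↔ range (fun n => tr X (c n : Set ℝ)) ∈ 𝔄) :
    bvS1Omega (𝔹 := Prop) (fun x => x ∈ X) A ↔ S1 (Omega X) 𝔄 := by
  simp only [bvS1Omega, iInf_Prop_eq, himp_iff_imp, iSup_Prop_eq, inf_Prop_eq, bvOmega_prop, hA]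
  constructor
  · intro h U hU
    have himg : ∀ n, (fun O : Opens ℝ => tr X O) '' {O | tr X (O : Set ℝ) ∈ U n} = U n := by
      intro n
      ext u
      constructor
      · rintro ⟨O, hO, rfl⟩; exact hO
      · intro hu
        obtain ⟨O, hO, rfl⟩ := isOpen_induced_iff.1 ((hU n).1 u hu)
        exact ⟨⟨O, hO⟩, hu, rfl⟩
    obtain ⟨c, hc, hr⟩ := h (fun n O => tr X (O : Set ℝ) ∈ U n) (fun n => by rw [himg n]; exact hU n)
    exact ⟨fun n => tr X (c n), hc, hr⟩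
  · intro h 𝒰 h𝒰
    obtain ⟨u, hu, hr⟩ := h (fun n => (fun O : Opens ℝ => tr X O) '' {O | 𝒰 n O}) h𝒰
    choose c hc hcu using hu
    refine ⟨c, hc, ?_⟩
    have : (fun n => tr X (c n : Set ℝ)) = u := funext hcu
    rw [this]; exact hr

/-- for `𝔹 = Prop` the truth value `[X satisfies S₁(Ω, Ω)]` is the literal statement -/
theorem sanity_Omega : bvS1Omega (𝔹 := Prop) (fun x => x ∈ X) (bvOmegaSeq (fun x => x ∈ X)) ↔
    S1 (Omega X) (Omega X) :=
  S1_prop X _ _ fun c => bvOmegaSeq_prop X _ fun n => (c n).isOpen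

/-- for `𝔹 = Prop` the truth value `[X satisfies S₁(Ω, 𝒪^{ω-gp})]` is the literal statement -/
theorem sanity_OmegaGroupable :
    bvS1Omega (𝔹 := Prop) (fun x => x ∈ X) (bvOmegaGroupable (fun x => x ∈ X)) ↔
      S1 (Omega X) (OmegaGroupable X) :=
  S1_prop X _ _ fun c => bvOmegaGroupable_prop X _ fun n => (c n).isOpen


end Pool.Agent.H59.BGP
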