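import Pool.Agent.H59.BGP.Defs
import Pool.Agent.H46.BorelPow.RO

set_option autoImplicit false

/-!
# The forcing notion

Conditions: a countable set `A ⊇ ℚ` of reals with countably many promises `(V, E)`: finite subsets
of `A \ E` are captured by infinitely many terms of the thick sequence `V`.
-/

open Set
open TopologicalSpace (Opens)
open Pool.Agent.H46.BorelPow (tv bvSubset RO IsReg reg isReg_reg OmegaDistributive)

namespace Pool.Agent.H59.BGP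

/-- A sequence of open sets of reals is thick if for every nonempty open `I`, for all large `m` and
all `z ∈ [0,1]` there is `x ∈ I` with `x, x + z ∈ V m`. -/
def Thick (V : ℕ → Set ℝ) : Prop :=
  (∀ m, IsOpen (V m)) ∧ ∀ I : Set ℝ, IsOpen I → I.Nonempty →
    ∃ m0, ∀ m ≥ m0, ∀ z ∈ Icc (0 : ℝ) 1, ∃ x ∈ I, x ∈ V m ∧ x + z ∈ V m

/-- conditions -/
structure Cond where
  A : Set ℝ
  T : Set ((ℕ → Set ℝ) × Set ℝ)
  hA : A.Countable
  hT : T.Countable
  hQ : ∀ q : ℚ, (q : ℝ) ∈ A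
  thick : ∀ t ∈ T, Thick t.1
  ok : ∀ t ∈ T, ∀ G : Set ℝ, G.Finite → G ⊆ A \ t.2 → ∀ N, ∃ m ≥ N, G ⊆ t.1 m

instance : Preorder Cond where
  le p q := p.A ⊆ q.A ∧ p.T ⊆ q.T
  le_refl _ := ⟨subset_rfl, subset_rfl⟩
  le_trans _ _ _ h1 h2 := ⟨h1.1.trans h2.1, h1.2.trans h2.2⟩

instance : Nonempty Cond :=
  ⟨⟨range ((↑) : ℚ → ℝ), ∅, countable_range _, countable_empty, fun q => ⟨q, rfl⟩, by simp, by simp⟩⟩

lemma chain_mono {p : ℕ → Cond} (hp : ∀ n, p n ≤ p (n + 1)) : ∀ {n m}, n ≤ m → p n ≤ p m := by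
  intro n m hnm
  induction hnm with
  | refl => exact le_rfl
  | step _ ih => exact ih.trans (hp _)

lemma finite_subset_chain {α : Type*} {S : ℕ → Set α} (hS : ∀ {n m}, n ≤ m → S n ⊆ S m) (k : ℕ)
    {G : Set α} (hG : G.Finite) (hGS : G ⊆ ⋃ n, S n) : ∃ n ≥ k, G ⊆ S n := by
  induction G, hG using Set.Finite.induction_on with
  | empty => exact ⟨k, le_rfl, empty_subset _⟩
  | @insert a G _ _ ih =>
    obtain ⟨n, hn, hGn⟩ := ih ((subset_insert _ _).trans hGS)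
    obtain ⟨m, hm⟩ := mem_iUnion.1 (hGS (mem_insert _ _))
    refine ⟨max n m, hn.trans (le_max_left _ _), insert_subset (hS (le_max_right _ _) hm) ?_⟩
    exact hGn.trans (hS (le_max_left _ _))

/-- the limit of an increasing sequence of conditions -/
def lim (p : ℕ → Cond) (hp : ∀ n, p n ≤ p (n + 1)) : Cond where
  A := ⋃ n, (p n).A
  T := ⋃ n, (p n).T
  hA := countable_iUnion fun n => (p n).hA
  hT := countable_iUnion fun n => (p n).hT
  hQ q := mem_iUnion.2 ⟨0, (p 0).hQ q⟩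
  thick t ht := by
    obtain ⟨n, hn⟩ := mem_iUnion.1 ht
    exact (p n).thick t hn
  ok t ht G hG hGA N := by
    obtain ⟨n, hn⟩ := mem_iUnion.1 ht
    obtain ⟨m, hm, hGm⟩ := finite_subset_chain (S := fun n => (p n).A)
      (fun h => (chain_mono hp h).1) n hG (fun x hx => (hGA hx).1)
    exact (p m).ok t ((chain_mono hp hm).2 hn) G hG (fun x hx => ⟨hGm hx, (hGA hx).2⟩) N

lemma le_lim (p : ℕ → Cond) (hp : ∀ n, p n ≤ p (n + 1)) (n : ℕ) : p n ≤ lim p hp :=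
  ⟨subset_iUnion (fun n => (p n).A) n, subset_iUnion (fun n => (p n).T) n⟩

/-- adding a generic pair `x, x + z` -/
lemma exists_pair (p : Cond) {z : ℝ} (hz : z ∈ Icc (0 : ℝ) 1) :
    ∃ q : Cond, p ≤ q ∧ ∃ x, x ∈ q.A ∧ x + z ∈ q.A := by
  classical
  have hcT : Countable p.T := p.hT.to_subtype
  have hcA : Countable p.A := p.hA.to_subtype
  let O : (p.T × Finset p.A × ℕ) → Set ℝ := fun γ =>
    {x | (∀ y ∈ γ.2.1, (y : ℝ) ∉ γ.1.1.2) →
      ∃ m ≥ γ.2.2, (∀ y ∈ γ.2.1, (y : ℝ) ∈ γ.1.1.1 m) ∧ x ∈ γ.1.1.1 m ∧ x + z ∈ γ.1.1.1 m}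
  have hO : ∀ γ, IsOpen (O γ) ∧ Dense (O γ) := by
    rintro ⟨t, G, N⟩
    by_cases h1 : ∀ y ∈ G, (y : ℝ) ∉ t.1.2
    · have hth := p.thick t.1 t.2
      have hcap : ∀ N, ∃ m ≥ N, ∀ y ∈ G, (y : ℝ) ∈ t.1.1 m := by
        intro N
        obtain ⟨m, hm, hG⟩ := p.ok t.1 t.2 (Subtype.val '' (G : Set p.A)) (G.finite_toSet.image _) (by
          rintro _ ⟨y, hy, rfl⟩
          exact ⟨y.2, h1 y hy⟩) N
        exact ⟨m, hm, fun y hy => hG ⟨y, hy, rfl⟩⟩
      have hOeq : O (t, G, N) = ⋃ m ∈ {m : ℕ | N ≤ m ∧ ∀ y ∈ G, (y : ℝ) ∈ t.1.1 m},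
          (t.1.1 m ∩ {x | x + z ∈ t.1.1 m}) := by
        ext x
        simp only [O, mem_ofPred_eq, mem_iUnion, mem_inter_iff, exists_prop]
        constructor
        · intro hx
          obtain ⟨m, hm, hk, hxm⟩ := hx h1
          exact ⟨m, ⟨hm, hk⟩, hxm⟩
        · rintro ⟨m, ⟨hm, hk⟩, hxm⟩ -
          exact ⟨m, hm, hk, hxm⟩
      rw [hOeq]
      refine ⟨isOpen_biUnion fun m _ => (hth.1 m).inter
        ((hth.1 m).preimage (continuous_id.add continuous_const)), ?_⟩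
      rw [dense_iff_inter_open]
      intro I hIo hIn
      obtain ⟨m0, hm0⟩ := hth.2 I hIo hIn
      obtain ⟨m, hm, hk⟩ := hcap (max N m0)
      obtain ⟨x, hxI, hx1, hx2⟩ := hm0 m (le_trans (le_max_right _ _) hm) z hz
      exact ⟨x, hxI, mem_biUnion (show N ≤ m ∧ _ from ⟨le_trans (le_max_left _ _) hm, hk⟩)
        ⟨hx1, hx2⟩⟩
    · have : O (t, G, N) = univ := eq_univ_of_forall fun x h => absurd h h1
      rw [this]; exact ⟨isOpen_univ, dense_univ⟩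
  obtain ⟨x, hx⟩ := (dense_iInter_of_isOpen (fun γ => (hO γ).1) (fun γ => (hO γ).2)).nonempty
  refine ⟨⟨p.A ∪ {x, x + z}, p.T, p.hA.union (by simp), p.hT, fun q => Or.inl (p.hQ q), p.thick, ?_⟩,
    ⟨subset_union_left, subset_rfl⟩, x, Or.inr (by simp), Or.inr (by simp)⟩
  intro t ht G hG hGA N
  have hG' : (G ∩ p.A).Finite := hG.subset inter_subset_left
  let G' : Finset p.A := (hG'.toFinset).subtype (· ∈ p.A)
  have h := mem_iInter.1 hx (⟨t, ht⟩, G', N)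
  obtain ⟨m, hm, h1, h2, h3⟩ := h (by
    intro y hy
    have : (y : ℝ) ∈ G := by
      have := Finset.mem_subtype.1 hy
      exact (hG'.mem_toFinset.1 this).1
    exact (hGA this).2)
  refine ⟨m, hm, fun y hy => ?_⟩
  rcases (hGA hy).1 with h | h
  · exact h1 ⟨y, h⟩ (Finset.mem_subtype.2 (hG'.mem_toFinset.2 ⟨hy, h⟩))
  · rcases h with rfl | h
    · exact h2
    · rw [mem_singleton_iff] at h
      rw [h]; exact h3

/-- adding a promise -/
def addPromise (p : Cond) (V : ℕ → Set ℝ) (hV : Thick V) : Cond where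
  A := p.A
  T := insert (V, p.A) p.T
  hA := p.hA
  hT := p.hT.insert _
  hQ := p.hQ
  thick t ht := by
    rcases ht with rfl | ht
    · exact hV
    · exact p.thick t ht
  ok t ht G hG hGA N := by
    rcases ht with rfl | ht
    · have : G = ∅ := eq_empty_of_forall_notMem fun x hx => (hGA hx).2 (hGA hx).1
      exact ⟨N, le_rfl, by simp [this]⟩
    · exact p.ok t ht G hG hGA N

lemma le_addPromise (p : Cond) (V : ℕ → Set ℝ) (hV : Thick V) : p ≤ addPromise p V hV :=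
  ⟨subset_rfl, subset_insert _ _⟩

lemma mem_addPromise (p : Cond) (V : ℕ → Set ℝ) (hV : Thick V) : (V, p.A) ∈ (addPromise p V hV).T :=
  mem_insert _ _

/-! ## Forcing -/

lemma mem_tv {P : Prop} {p : Cond} : p ∈ (tv (RO Cond) P).S ↔ P := by
  unfold tv
  rw [RO.mem_iSup]
  constructor
  · intro h
    obtain ⟨r, -, hP, -⟩ := h p le_rfl
    exact hP
  · intro hP q _
    exact ⟨q, le_rfl, hP, trivial⟩

/-- the generic set of reals -/
def XG (x : ℝ) : RO Cond := ⟨reg {p | x ∈ p.A}, isReg_reg _⟩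

lemma mem_XG {p : Cond} {x : ℝ} (hx : x ∈ p.A) : p ∈ (XG x).S := fun q hq => ⟨q, le_rfl, hq.1 hx⟩

lemma exists_of_mem_XG {p : Cond} {x : ℝ} (hx : p ∈ (XG x).S) : ∃ q, p ≤ q ∧ x ∈ q.A := hx p le_rfl

lemma mem_bvFin {F : Finset ℝ} {p : Cond} : p ∈ (bvFin XG F).S ↔ ∀ x ∈ F, p ∈ (XG x).S := by
  unfold bvFin
  simp only [RO.mem_iInf]

lemma mem_bvFin_of {F : Finset ℝ} {p : Cond} (h : (↑F : Set ℝ) ⊆ p.A) : p ∈ (bvFin XG F).S :=
  mem_bvFin.2 fun _ hx => mem_XG (h hx)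

lemma exists_of_mem_bvFin {F : Finset ℝ} {p : Cond} (hp : p ∈ (bvFin XG F).S) :
    ∃ q, p ≤ q ∧ (↑F : Set ℝ) ⊆ q.A := by
  classical
  rw [mem_bvFin] at hp
  induction F using Finset.induction_on with
  | empty => exact ⟨p, le_rfl, by simp⟩
  | insert a F _ ih =>
    obtain ⟨q, hq, hqF⟩ := ih (fun x hx => hp x (Finset.mem_insert_of_mem hx))
    obtain ⟨r, hr, hra⟩ := hp a (Finset.mem_insert_self _ _) q hq
    refine ⟨r, hq.trans hr, ?_⟩
    rw [Finset.coe_insert]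
    exact insert_subset hra (hqF.trans hr.1)

lemma mem_bvSubset {U : Set ℝ} {p : Cond} : p ∈ (bvSubset XG U).S ↔ ∀ q, p ≤ q → q.A ⊆ U := by
  unfold bvSubset
  simp only [RO.mem_iInf, RO.mem_himp, mem_tv]
  constructor
  · intro h1 q hq x hx
    exact h1 x q hq (mem_XG hx)
  · intro h1 x q hq hx
    obtain ⟨r, hr, hrx⟩ := exists_of_mem_XG hx
    exact h1 r (hq.trans hr) hrx

lemma mem_bvSubset_compl {U : Set ℝ} {p : Cond} :
    p ∈ ((bvSubset XG U)ᶜ).S ↔ ∀ q, p ≤ q → ∃ r, q ≤ r ∧ ∃ x ∈ r.A, x ∉ U := by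
  rw [RO.mem_compl]
  simp only [mem_bvSubset]
  refine forall_congr' fun q => forall_congr' fun _ => ?_
  push Not
  refine exists_congr fun r => and_congr_right fun _ => ?_
  exact Set.not_subset

lemma mem_bvSubset_compl_of {U : Set ℝ} {p : Cond} {x : ℝ} (hx : x ∈ p.A) (hxU : x ∉ U) :
    p ∈ ((bvSubset XG U)ᶜ).S :=
  mem_bvSubset_compl.2 fun q hq => ⟨q, le_rfl, x, hq.1 hx, hxU⟩

lemma mem_bvSame {U V : Set ℝ} {p : Cond} :
    p ∈ (bvSame XG U V).S ↔ ∀ q, p ≤ q → ∀ x ∈ q.A, (x ∈ U ↔ x ∈ V) := by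
  unfold bvSame
  simp only [RO.mem_iInf, RO.mem_himp, mem_tv]
  constructor
  · intro h1 q hq x hx
    exact h1 x q hq (mem_XG hx)
  · intro h1 x q hq hx
    obtain ⟨r, hr, hrx⟩ := exists_of_mem_XG hx
    exact h1 r (hq.trans hr) x hrx

lemma mem_bvOmegaSeq {c : ℕ → Set ℝ} {p : Cond} :
    p ∈ (bvOmegaSeq XG c).S ↔ (∀ n, p ∈ ((bvSubset XG (c n))ᶜ).S) ∧
      ∀ q, p ≤ q → ∀ F : Set ℝ, F.Finite → F ⊆ q.A → ∃ n, F ⊆ c n := by
  unfold bvOmegaSeq
  simp only [RO.mem_inf, RO.mem_iInf, RO.mem_himp, mem_tv]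
  refine and_congr_right fun _ => ?_
  constructor
  · intro h1 q hq F hF hFq
    obtain ⟨F, rfl⟩ := hF.exists_finset_coe
    exact h1 F q hq (mem_bvFin_of hFq)
  · intro h1 F q hq hF
    obtain ⟨r, hr, hrF⟩ := exists_of_mem_bvFin hF
    exact h1 r (hq.trans hr) F F.finite_toSet hrF

lemma pick_of_mem_bvOmega {𝒰 : Opens ℝ → RO Cond} {p : Cond} (hp : p ∈ (bvOmega XG 𝒰).S)
    {F : Set ℝ} (hF : F.Finite) (hFp : F ⊆ p.A) :
    ∃ q, p ≤ q ∧ ∃ O : Opens ℝ, q ∈ (𝒰 O).S ∧ F ⊆ O ∧ ∃ x ∈ q.A, x ∉ O := by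
  obtain ⟨F, rfl⟩ := hF.exists_finset_coe
  unfold bvOmega at hp
  simp only [RO.mem_inf, RO.mem_iInf, RO.mem_himp] at hp
  have h := hp.2 F p le_rfl (mem_bvFin_of hFp)
  rw [RO.mem_iSup] at h
  obtain ⟨q, hq, O, hO⟩ := h p le_rfl
  rw [RO.mem_inf, mem_tv] at hO
  have h2 := hp.1 O q hq hO.1
  rw [mem_bvSubset_compl] at h2
  obtain ⟨r, hr, x, hx, hxO⟩ := h2 q le_rfl
  exact ⟨r, hq.trans hr, O, (RO.isReg _).up hO.1 hr, hO.2, x, hx, hxO⟩

lemma omegaDistributive : OmegaDistributive (RO Cond) := by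
  intro ι a
  refine le_antisymm ?_ ?_
  · intro p hp
    rw [RO.mem_iInf] at hp
    rw [RO.mem_iSup]
    intro q hq
    have hstep : ∀ n (r : {r : Cond // p ≤ r}), ∃ s : {s : Cond // p ≤ s}, r.1 ≤ s.1 ∧
        ∃ i, s.1 ∈ (a n i).S := by
      intro n r
      have h1 := hp n
      rw [RO.mem_iSup] at h1
      obtain ⟨s, hs, i, hi⟩ := h1 r.1 r.2
      exact ⟨⟨s, r.2.trans hs⟩, hs, i, hi⟩
    choose s hs i hi using hstep
    let u : ℕ → {r : Cond // p ≤ r} := fun n => Nat.rec ⟨q, hq⟩ (fun n r => s n r) n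
    have hu : ∀ n, u (n + 1) = s n (u n) := fun n => rfl
    have hmono : ∀ n, (u n).1 ≤ (u (n + 1)).1 := fun n => by rw [hu]; exact hs n (u n)
    have hb := le_lim (fun n => (u n).1) hmono
    refine ⟨lim (fun n => (u n).1) hmono, hb 0, fun n => i n (u n), ?_⟩
    rw [RO.mem_iInf]
    intro n
    exact (a n _).isReg.up (hi n (u n)) (by have := hb (n + 1); simpa only [hu] using this)
  · exact iSup_le fun f => le_iInf fun n => (iInf_le _ n).trans (le_iSup (a n) (f n))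

/-- deciding countably many statements `X ⊆ V m` -/
lemma decide_all (V : ℕ → Set ℝ) (p : Cond) : ∃ q, p ≤ q ∧
    ∀ m, q ∈ (bvSubset XG (V m)).S ∨ q ∈ ((bvSubset XG (V m))ᶜ).S := by
  have hstep : ∀ n (r : Cond), ∃ s, r ≤ s ∧
      (s ∈ (bvSubset XG (V n)).S ∨ s ∈ ((bvSubset XG (V n))ᶜ).S) := by
    intro n r
    by_cases h : ∃ s, r ≤ s ∧ s ∈ (bvSubset XG (V n)).S
    · obtain ⟨s, hs, h⟩ := h
      exact ⟨s, hs, Or.inl h⟩
    · push Not at h
      exact ⟨r, le_rfl, Or.inr (RO.mem_compl.2 h)⟩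
  choose s hs hd using hstep
  let u : ℕ → Cond := fun n => Nat.rec p (fun n r => s n r) n
  have hmono : ∀ n, u n ≤ u (n + 1) := fun n => hs n (u n)
  have hb := le_lim u hmono
  refine ⟨lim u hmono, hb 0, fun m => ?_⟩
  rcases hd m (u m) with h | h
  · exact Or.inl ((RO.isReg _).up h (hb (m + 1)))
  · exact Or.inr ((RO.isReg _).up h (hb (m + 1)))

end Pool.Agent.H59.BGP
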