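import Pool.Agent.H59.BGP.Select

set_option autoImplicit false

/-!
# The two truth values
-/

open Set
open TopologicalSpace (Opens)
open Pool.Agent.H46.BorelPow (tv bvSubset RO IsReg reg isReg_reg OmegaDistributive)

namespace Pool.Agent.H59.BGP

theorem exists_block {c : ℕ → ℕ} (hc : StrictMono c) (h0 : c 0 = 0) (x : ℕ) :
    ∃ b, c b ≤ x ∧ x < c (b + 1) := by
  classical
  have hex : ∃ b, x < c (b + 1) := ⟨x, lt_of_lt_of_le (Nat.lt_succ_self x) (hc.id_le (x + 1))⟩
  refine ⟨Nat.find hex, ?_, Nat.find_spec hex⟩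
  rcases Nat.eq_zero_or_pos (Nat.find hex) with hz | hp
  · rw [hz, h0]; exact Nat.zero_le x
  · have := Nat.find_min hex (Nat.sub_lt hp one_pos)
    rw [show Nat.find hex - 1 + 1 = Nat.find hex from by omega] at this
    exact not_lt.1 this

lemma block_unique {c : ℕ → ℕ} (hc : StrictMono c) {x b b' : ℕ} (h1 : c b ≤ x) (h2 : x < c (b + 1))
    (h3 : c b' ≤ x) (h4 : x < c (b' + 1)) : b = b' := by
  have h5 : b < b' + 1 := hc.lt_iff_lt.1 (h1.trans_lt h4)
  have h6 : b' < b + 1 := hc.lt_iff_lt.1 (h3.trans_lt h2)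
  omega

/-- a finite-to-one surjection is a block function, if the members are forced to be distinct -/
lemma mem_bvBlocks {c : ℕ → Set ℝ} {p : Cond} (hdis : ∀ n m, n ≠ m → ∀ q, p ≤ q →
    q ∉ (bvSame XG (c n) (c m)).S) {β : ℕ → ℕ} (hβ : Function.Surjective β)
    (hfin : ∀ k, ∃ N, ∀ n, β n = k → n < N) : p ∈ (bvBlocks XG c β).S := by
  unfold bvBlocks
  rw [RO.mem_inf, RO.mem_inf]
  refine ⟨⟨?_, mem_tv.2 hβ⟩, ?_⟩
  · simp only [RO.mem_iInf, RO.mem_himp, mem_tv]
    intro n m q hq hs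
    by_contra hne
    exact hdis n m (fun h => hne (by rw [h])) q hq hs
  · rw [RO.mem_iInf]
    intro k
    obtain ⟨N, hN⟩ := hfin k
    rw [RO.mem_iSup]
    intro q _
    refine ⟨q, le_rfl, N, ?_⟩
    simp only [RO.mem_iInf, RO.mem_himp, mem_tv]
    intro n r _ hn
    rw [RO.mem_iSup]
    intro s _
    refine ⟨s, le_rfl, n, ?_⟩
    rw [RO.mem_inf, mem_tv, mem_bvSame]
    exact ⟨hN n hn, fun _ _ x _ => Iff.rfl⟩

theorem bv_groupable : bvS1Omega XG (bvOmegaGroupable XG) = ⊤ := by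
  classical
  rw [RO.eq_top_iff']
  intro p
  unfold bvS1Omega
  rw [RO.mem_iInf]
  intro 𝒰
  rw [RO.mem_himp]
  intro p0 _ h0
  rw [RO.mem_iInf] at h0
  rw [RO.mem_iSup]
  intro q0 hq0
  obtain ⟨q, c, y, a, hq, ha, ha0, hc, hyA, hyc, hyc', hV, hold⟩ :=
    exists_selection (p0 := q0) (𝒰 := 𝒰) (fun n => (RO.isReg _).up (h0 n) hq0)
  set V : ℕ → Set ℝ := fun m => ⋃ n ∈ Ico (a m) (a (m + 1)), (c n : Set ℝ) with hVdef
  have hq1 := le_addPromise q V hV
  have hpr := mem_addPromise q V hV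
  obtain ⟨s, hs, hdec⟩ := decide_all V (addPromise q V hV)
  have hqs : q ≤ s := hq1.trans hs
  refine ⟨s, hq.trans hqs, c, ?_⟩
  -- finite sets are captured infinitely often
  have hcap : ∀ r, s ≤ r → ∀ F : Set ℝ, F.Finite → F ⊆ r.A → ∀ N, ∃ m ≥ N, F ⊆ V m := by
    intro r hr F hF hFr N
    obtain ⟨M, hM⟩ : ∃ M, ∀ m ≥ M, ∀ x ∈ F ∩ q.A, x ∈ V m := by
      choose! m0 hm0 using hold
      obtain ⟨M, hM⟩ := ((hF.subset (inter_subset_left (t := q.A))).image m0).bddAbove
      exact ⟨M, fun m hm x hx => hm0 x hx.2 m ((hM ⟨x, hx, rfl⟩).trans hm)⟩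
    obtain ⟨m, hm, hFm⟩ := r.ok (V, q.A) ((hs.trans hr).2 hpr) (F \ q.A) (hF.subset sdiff_subset)
      (fun x hx => ⟨hFr hx.1, hx.2⟩) (max N M)
    refine ⟨m, le_trans (le_max_left _ _) hm, fun x hx => ?_⟩
    by_cases hxq : x ∈ q.A
    · exact hM m (le_trans (le_max_right _ _) hm) x ⟨hx, hxq⟩
    · exact hFm ⟨hx, hxq⟩
  have hne : ∀ n r, s ≤ r → r ∈ ((bvSubset XG (c n : Set ℝ))ᶜ).S := fun n r hr =>
    mem_bvSubset_compl_of (hqs.1.trans hr.1 (hyA n)) (hyc n)
  have hdis : ∀ n m, n ≠ m → ∀ r, s ≤ r → r ∉ (bvSame XG (c n : Set ℝ) (c m)).S := by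
    intro n m hnm r hr h
    rw [mem_bvSame] at h
    rcases lt_or_gt_of_ne hnm with hlt | hlt
    · exact hyc n ((h r le_rfl (y n) (hqs.1.trans hr.1 (hyA n))).2 (hyc' n m hlt))
    · exact hyc m ((h r le_rfl (y m) (hqs.1.trans hr.1 (hyA m))).1 (hyc' m n hlt))
  have hVc : ∀ m, V m ⊆ ⋃ n, (c n : Set ℝ) := fun m =>
    iUnion₂_subset fun n _ => subset_iUnion (fun n => (c n : Set ℝ)) n
  choose g hg1 hg2 using exists_block ha ha0
  have hgeq : ∀ m n, n ∈ Ico (a m) (a (m + 1)) → g n = m := fun m n hn =>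
    block_unique ha (hg1 n) (hg2 n) hn.1 hn.2
  rw [RO.mem_inf]
  refine ⟨?_, ?_⟩
  · rw [RO.mem_iInf]
    exact fun n => (RO.isReg _).up (hc n) hqs
  unfold bvOmegaGroupable bvOpenSeq
  rw [RO.mem_inf, RO.mem_inf, RO.mem_iInf]
  refine ⟨⟨fun n => hne n s le_rfl, ?_⟩, ?_⟩
  · rw [mem_bvSubset]
    intro r hr x hx
    obtain ⟨m, -, hm⟩ := hcap r hr {x} (finite_singleton x) (by simpa using hx) 0
    exact hVc m (hm rfl)
  by_cases hinf : {m | s ∈ (bvSubset XG (V m)).S}.Infinite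
  · -- multifinite
    refine (show (bvMultifinite XG fun n => (c n : Set ℝ)) ≤ _ from le_sup_left) ?_
    unfold bvMultifinite
    rw [RO.mem_iSup]
    intro r hr
    set D : ℕ → Prop := fun m => s ∈ (bvSubset XG (V m)).S with hD
    have hDinf : {m | D m}.Infinite := hinf
    let β : ℕ → ℕ := fun n => Nat.count D (g n)
    have hβ : ∀ k n, n ∈ Ico (a (Nat.nth D k)) (a (Nat.nth D k + 1)) → β n = k := by
      intro k n hn
      simp only [β, hgeq _ n hn]
      exact Nat.count_nth_of_infinite hDinf k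
    refine ⟨r, le_rfl, β, ?_⟩
    rw [RO.mem_inf]
    constructor
    · refine mem_bvBlocks (fun n m hnm t ht => hdis n m hnm t (hr.trans ht)) ?_ ?_
      · intro k
        exact ⟨a (Nat.nth D k), hβ k _ ⟨le_rfl, ha (Nat.lt_succ_self _)⟩⟩
      · intro k
        refine ⟨a (Nat.nth D k + 1), fun n hn => ?_⟩
        by_contra hlt
        have h1 : Nat.nth D k + 1 ≤ g n := by
          by_contra h2
          have h3 : g n + 1 ≤ Nat.nth D k + 1 := by omega
          have h4 := ha.monotone h3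
          have h5 := hg2 n
          omega
        have h2 : Nat.count D (Nat.nth D k + 1) ≤ Nat.count D (g n) := Nat.count_monotone D h1
        rw [Nat.count_succ, Nat.count_nth_of_infinite hDinf k,
          if_pos (Nat.nth_mem_of_infinite hDinf k)] at h2
        have h6 : Nat.count D (g n) = k := hn
        omega
    · rw [RO.mem_iInf]
      intro k
      rw [mem_bvSubset]
      intro t ht
      have h1 : s ∈ (bvSubset XG (V (Nat.nth D k))).S := Nat.nth_mem_of_infinite hDinf k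
      refine (mem_bvSubset.1 h1 t (hr.trans ht)).trans ?_
      intro x hx
      simp only [V, mem_iUnion, exists_prop] at hx
      obtain ⟨n, hn, hx⟩ := hx
      exact mem_biUnion (hβ k n hn) hx
  · -- groupable
    refine (show (bvOmegaBlocks XG fun n => (c n : Set ℝ)) ≤ _ from le_sup_right) ?_
    rw [not_infinite] at hinf
    obtain ⟨N0, hN0⟩ : ∃ N0, ∀ m ≥ N0, s ∈ ((bvSubset XG (V m))ᶜ).S := by
      obtain ⟨M, hM⟩ := hinf.bddAbove
      refine ⟨M + 1, fun m hm => ?_⟩
      rcases hdec m with h | h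
      · have h2 : m ≤ M := hM h
        omega
      · exact h
    unfold bvOmegaBlocks
    rw [RO.mem_iSup]
    intro r hr
    let β : ℕ → ℕ := fun n => if n < a N0 then n else a N0 + (g n - N0)
    have hβ1 : ∀ n, n < a N0 → β n = n := fun n hn => if_pos hn
    have hβ2 : ∀ n, ¬ n < a N0 → β n = a N0 + (g n - N0) := fun n hn => if_neg hn
    have hgN : ∀ n, ¬ n < a N0 → N0 ≤ g n := by
      intro n hn
      by_contra hlt
      have h1 : g n + 1 ≤ N0 := by omega
      have h2 := ha.monotone h1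
      have h3 := hg2 n
      omega
    have hβ3 : ∀ m n, N0 ≤ m → n ∈ Ico (a m) (a (m + 1)) → β n = a N0 + (m - N0) := by
      intro m n hm hn
      rw [hβ2 n (by have := ha.monotone hm; have := hn.1; omega), hgeq m n hn]
    refine ⟨r, le_rfl, β, ?_⟩
    rw [RO.mem_inf]
    constructor
    · refine mem_bvBlocks (fun n m hnm t ht => hdis n m hnm t (hr.trans ht)) ?_ ?_
      · intro k
        by_cases hk : k < a N0
        · exact ⟨k, hβ1 k hk⟩
        · refine ⟨a (N0 + (k - a N0)), ?_⟩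
          rw [hβ3 (N0 + (k - a N0)) _ (by omega) ⟨le_rfl, ha (Nat.lt_succ_self _)⟩]
          omega
      · intro k
        refine ⟨max (a N0) (a (N0 + (k - a N0) + 1)), fun n hn => ?_⟩
        by_cases h : n < a N0
        · exact lt_of_lt_of_le h (le_max_left _ _)
        · refine lt_of_lt_of_le ?_ (le_max_right _ _)
          rw [hβ2 n h] at hn
          have h1 := hgN n h
          have h2 : g n = N0 + (k - a N0) := by omega
          rw [← h2]
          exact hg2 n
    · rw [mem_bvOmegaSeq]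
      have hbl : ∀ m, N0 ≤ m → blockUnion (fun n => (c n : Set ℝ)) β (a N0 + (m - N0)) = V m := by
        intro m hm
        ext x
        simp only [blockUnion, V, mem_iUnion, mem_ofPred_eq, exists_prop]
        constructor
        · rintro ⟨n, hn, hx⟩
          refine ⟨n, ?_, hx⟩
          by_cases h : n < a N0
          · rw [hβ1 n h] at hn; omega
          · rw [hβ2 n h] at hn
            have h1 := hgN n h
            have h2 : g n = m := by omega
            rw [← h2]
            exact ⟨hg1 n, hg2 n⟩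
        · rintro ⟨n, hn, hx⟩
          exact ⟨n, hβ3 m n hm hn, hx⟩
      constructor
      · intro k
        by_cases hk : k < a N0
        · have : blockUnion (fun n => (c n : Set ℝ)) β k = c k := by
            ext x
            simp only [blockUnion, mem_iUnion, mem_ofPred_eq, exists_prop]
            constructor
            · rintro ⟨n, hn, hx⟩
              by_cases h : n < a N0
              · rw [hβ1 n h] at hn; rw [← hn]; exact hx
              · rw [hβ2 n h] at hn; omega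
            · intro hx
              exact ⟨k, hβ1 k hk, hx⟩
          rw [this]
          exact hne k r hr
        · have h1 := hbl (N0 + (k - a N0)) (by omega)
          rw [show a N0 + (N0 + (k - a N0) - N0) = k by omega] at h1
          rw [h1]
          exact (RO.isReg _).up (hN0 _ (by omega)) hr
      · intro t ht F hF hFt
        obtain ⟨m, hm, hFm⟩ := hcap t (hr.trans ht) F hF hFt N0
        refine ⟨a N0 + (m - N0), ?_⟩
        rw [hbl m hm]
        exact hFm

open MeasureTheory in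
theorem bv_not_Omega : bvS1Omega XG (bvOmegaSeq XG) = ⊥ := by
  classical
  rw [RO.eq_bot_iff']
  intro p hp
  obtain ⟨ε, hε0, hε⟩ := ENNReal.exists_pos_sum_of_countable (ε := 1) one_ne_zero ℕ
  let Dm : Set ℝ → Set ℝ := fun W => {t | ∃ a ∈ W, ∃ b ∈ W, b - a = t}
  have hvol : ∀ n (W : Set ℝ), volume (Dm W) ≤ ε n → ∃ z ∈ Icc (0 : ℝ) 1, z ∉ Dm W := by
    intro n W hW
    by_contra hcon
    push Not at hcon
    have h1 : (1 : ENNReal) ≤ ε n := by
      have h2 := (measure_mono (show Icc (0 : ℝ) 1 ⊆ Dm W from hcon)).trans hW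
      rw [Real.volume_Icc] at h2
      simpa using h2
    have h3 : (ε n : ENNReal) ≤ ∑' i, (ε i : ENNReal) := ENNReal.le_tsum n
    exact absurd (h1.trans h3) (not_le.2 hε)
  have hcov : ∀ n (F : Finset ℝ), ∃ O : Opens ℝ, volume (Dm O) ≤ ε n ∧ (↑F : Set ℝ) ⊆ O := by
    intro n F
    set N : ℕ := F.card with hN
    set δ : ℝ := (ε n : ℝ) / (4 * (N * N + 1)) with hδ
    have hε' : (0 : ℝ) < ε n := NNReal.coe_pos.2 (hε0 n)
    have hδ0 : 0 < δ := by positivity
    set W : Set ℝ := ⋃ x ∈ F, Metric.ball (x : ℝ) δ with hW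
    refine ⟨⟨W, isOpen_biUnion fun x _ => Metric.isOpen_ball⟩, ?_, fun x hx =>
      mem_biUnion hx (Metric.mem_ball_self hδ0)⟩
    have hsub : Dm W ⊆ ⋃ x ∈ F, ⋃ y ∈ F, Metric.ball ((y : ℝ) - x) (2 * δ) := by
      rintro t ⟨a, ha, b, hb, rfl⟩
      rw [hW] at ha hb
      simp only [mem_iUnion, exists_prop] at ha hb
      obtain ⟨x, hx, hxa⟩ := ha
      obtain ⟨y, hy, hyb⟩ := hb
      simp only [mem_iUnion, exists_prop]
      refine ⟨x, hx, y, hy, ?_⟩
      rw [Metric.mem_ball, Real.dist_eq] at hxa hyb ⊢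
      rw [abs_lt] at hxa hyb ⊢
      constructor <;> linarith [hxa.1, hxa.2, hyb.1, hyb.2]
    calc volume (Dm W) ≤ volume (⋃ x ∈ F, ⋃ y ∈ F,
          Metric.ball ((y : ℝ) - x) (2 * δ)) := measure_mono hsub
      _ ≤ ∑ x ∈ F, volume (⋃ y ∈ F, Metric.ball ((y : ℝ) - x) (2 * δ)) :=
          measure_biUnion_finset_le _ _
      _ ≤ ∑ x ∈ F, ∑ y ∈ F, volume (Metric.ball ((y : ℝ) - x) (2 * δ)) :=
          Finset.sum_le_sum fun x _ => measure_biUnion_finset_le _ _
      _ = ∑ x ∈ F, ∑ y ∈ F, ENNReal.ofReal (2 * (2 * δ)) := by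
          simp only [Real.volume_ball]
      _ = ENNReal.ofReal (N * (N * (2 * (2 * δ)))) := by
          have h7 : ENNReal.ofReal (N * (N * (2 * (2 * δ)))) =
              N * (N * ENNReal.ofReal (2 * (2 * δ))) := by
            rw [ENNReal.ofReal_mul (Nat.cast_nonneg N), ENNReal.ofReal_mul (Nat.cast_nonneg N),
              ENNReal.ofReal_natCast]
          rw [h7]
          simp only [Finset.sum_const, ← hN, nsmul_eq_mul]
      _ ≤ ENNReal.ofReal (ε n) := by
          apply ENNReal.ofReal_le_ofReal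
          rw [hδ]
          have h5 : (0 : ℝ) < N * N + 1 := by positivity
          have : (N : ℝ) * (N * (2 * (2 * ((ε n : ℝ) / (4 * (N * N + 1)))))) =
              (ε n : ℝ) * ((N * N) / (N * N + 1)) := by field_simp; ring
          rw [this]
          have h6 : ((N : ℝ) * N) / (N * N + 1) ≤ 1 := by
            rw [div_le_one h5]; linarith
          nlinarith
      _ = ε n := ENNReal.ofReal_coe_nnreal
  let 𝒰 : ℕ → Opens ℝ → RO Cond := fun n O => tv (RO Cond) (volume (Dm O) ≤ ε n)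
  have h𝒰 : ∀ n, p ∈ (bvOmega XG (𝒰 n)).S := by
    intro n
    unfold bvOmega
    rw [RO.mem_inf]
    constructor
    · rw [RO.mem_iInf]
      intro O
      rw [RO.mem_himp]
      intro q _ hq
      rw [mem_tv] at hq
      obtain ⟨z, hz, hzD⟩ := hvol n O hq
      rw [mem_bvSubset_compl]
      intro r _
      obtain ⟨s, hs, x, hx, hxz⟩ := exists_pair r hz
      by_cases hxO : x ∈ (O : Set ℝ)
      · refine ⟨s, hs, x + z, hxz, fun h => hzD ⟨x, hxO, x + z, h, by ring⟩⟩
      · exact ⟨s, hs, x, hx, hxO⟩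
    · rw [RO.mem_iInf]
      intro F
      rw [RO.mem_himp]
      intro q _ _
      obtain ⟨O, hO, hFO⟩ := hcov n F
      rw [RO.mem_iSup]
      intro r _
      refine ⟨r, le_rfl, O, ?_⟩
      rw [RO.mem_inf]
      exact ⟨mem_tv.2 hO, mem_tv.2 hFO⟩
  unfold bvS1Omega at hp
  rw [RO.mem_iInf] at hp
  have h1 := hp 𝒰
  rw [RO.mem_himp] at h1
  have h2 := h1 p le_rfl (by rw [RO.mem_iInf]; exact h𝒰)
  rw [RO.mem_iSup] at h2
  obtain ⟨q, -, c, hq⟩ := h2 p le_rfl
  rw [RO.mem_inf, RO.mem_iInf, mem_bvOmegaSeq] at hq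
  have hD : ∀ n, volume (Dm (c n)) ≤ ε n := fun n => mem_tv.1 (hq.1 n)
  have hsub : Icc (0 : ℝ) 1 ⊆ ⋃ n, Dm (c n) := by
    intro z hz
    obtain ⟨r, hr, x, hx, hxz⟩ := exists_pair q hz
    obtain ⟨n, hn⟩ := hq.2.2 r hr {x, x + z} (by simp) (by
      intro t ht
      rcases ht with rfl | ht
      · exact hx
      · rw [mem_singleton_iff] at ht
        rw [ht]; exact hxz)
    exact mem_iUnion.2 ⟨n, x, hn (by simp), x + z, hn (by simp), by ring⟩
  have h3 : (1 : ENNReal) ≤ ∑' n, (ε n : ENNReal) := by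
    calc (1 : ENNReal) = volume (Icc (0 : ℝ) 1) := by rw [Real.volume_Icc]; simp
      _ ≤ volume (⋃ n, Dm (c n)) := measure_mono hsub
      _ ≤ ∑' n, volume (Dm (c n)) := measure_iUnion_le _
      _ ≤ ∑' n, (ε n : ENNReal) := ENNReal.tsum_le_tsum hD
  exact absurd h3 (not_le.2 hε)

theorem bv_main : ∃ (𝔹 : Type) (_ : CompleteBooleanAlgebra 𝔹), Nontrivial 𝔹 ∧ OmegaDistributive 𝔹 ∧
    ∃ X : ℝ → 𝔹, bvS1Omega X (bvOmegaGroupable X) = ⊤ ∧ bvS1Omega X (bvOmegaSeq X) = ⊥ := by
  refine ⟨RO Cond, inferInstance, ⟨⊤, ⊥, ?_⟩, omegaDistributive, XG, bv_groupable, bv_not_Omega⟩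
  intro h
  have h1 : (Classical.arbitrary Cond) ∈ (⊤ : RO Cond).S := trivial
  rw [h] at h1
  exact h1

end Pool.Agent.H59.BGP
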