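import Pool.Agent.H59.BGP.Forc

set_option autoImplicit false

/-!
# Deciding a selection
-/

open Set
open TopologicalSpace (Opens)
open Pool.Agent.H46.BorelPow (tv bvSubset RO IsReg reg isReg_reg OmegaDistributive)

namespace Pool.Agent.H59.BGP

/-- Sequential choices of states. -/
theorem step_seq {S : Type*} (Inv : ℕ → S → Prop) (R : ℕ → S → S → Prop) (s0 : S) (h0 : Inv 0 s0)
    (h : ∀ m s, Inv m s → ∃ s', Inv (m + 1) s' ∧ R m s s') :
    ∃ f : ℕ → S, f 0 = s0 ∧ (∀ m, Inv m (f m)) ∧ ∀ m, R m (f m) (f (m + 1)) := by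
  choose! g hg using h
  let f : ℕ → S := fun n => Nat.rec s0 (fun m s => g m s) n
  have hf : ∀ m, Inv m (f m) := by
    intro m
    induction m with
    | zero => exact h0
    | succ m ih => exact (hg m (f m) ih).1
  exact ⟨f, rfl, hf, fun m => (hg m (f m) (hf m)).2⟩

/-- states of the selection -/
structure St where
  p : Cond
  N : ℕ
  O : ℕ → Opens ℝ
  y : ℕ → ℝ

/-- the selected sets are decided and have witnesses -/
structure Good (𝒰 : ℕ → Opens ℝ → RO Cond) (p0 : Cond) (s : St) : Prop where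
  base : p0 ≤ s.p
  mem : ∀ j < s.N, s.p ∈ (𝒰 j (s.O j)).S
  yA : ∀ j < s.N, s.y j ∈ s.p.A
  yO : ∀ j < s.N, s.y j ∉ s.O j
  yy : ∀ i j, i < j → j < s.N → s.y i ∈ s.O j

/-- extension of states -/
structure Ext (s s' : St) : Prop where
  le : s.p ≤ s'.p
  N : s.N ≤ s'.N
  O : ∀ j < s.N, s'.O j = s.O j
  y : ∀ j < s.N, s'.y j = s.y j

lemma Ext.refl (s : St) : Ext s s := ⟨le_rfl, le_rfl, fun _ _ => rfl, fun _ _ => rfl⟩

lemma Ext.trans {s s' s'' : St} (h : Ext s s') (h' : Ext s' s'') : Ext s s'' :=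
  ⟨h.le.trans h'.le, h.N.trans h'.N,
    fun j hj => (h'.O j (hj.trans_le h.N)).trans (h.O j hj),
    fun j hj => (h'.y j (hj.trans_le h.N)).trans (h.y j hj)⟩

variable {𝒰 : ℕ → Opens ℝ → RO Cond} {p0 : Cond}

lemma pick_one (h𝒰 : ∀ n, p0 ∈ (bvOmega XG (𝒰 n)).S) {s : St} (hs : Good 𝒰 p0 s) {F : Set ℝ}
    (hF : F.Finite) (hFs : F ⊆ s.p.A) :
    ∃ s', Good 𝒰 p0 s' ∧ Ext s s' ∧ s'.N = s.N + 1 ∧ F ⊆ s'.O s.N := by
  classical
  obtain ⟨q, hq, O, hO, hFO, x, hx, hxO⟩ := pick_of_mem_bvOmega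
    ((RO.isReg _).up (h𝒰 s.N) hs.base) (F := F ∪ s.y '' Iio s.N)
    (hF.union ((finite_Iio _).image _)) (union_subset hFs (by
      rintro _ ⟨j, hj, rfl⟩
      exact hs.yA j hj))
  have hO' : ∀ j < s.N, Function.update s.O s.N O j = s.O j := fun j hj =>
    Function.update_of_ne hj.ne _ _
  have hy' : ∀ j < s.N, Function.update s.y s.N x j = s.y j := fun j hj =>
    Function.update_of_ne hj.ne _ _
  refine ⟨⟨q, s.N + 1, Function.update s.O s.N O, Function.update s.y s.N x⟩, ?_,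
    ⟨hq, Nat.le_succ _, hO', hy'⟩, rfl, ?_⟩
  · refine ⟨hs.base.trans hq, ?_, ?_, ?_, ?_⟩
    · intro j hj
      rcases Nat.lt_succ_iff_lt_or_eq.1 hj with h | rfl
      · simp only [hO' j h]
        exact (RO.isReg _).up (hs.mem j h) hq
      · simp only [Function.update_self]
        exact hO
    · intro j hj
      rcases Nat.lt_succ_iff_lt_or_eq.1 hj with h | rfl
      · simp only [hy' j h]
        exact hq.1 (hs.yA j h)
      · simp only [Function.update_self]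
        exact hx
    · intro j hj
      rcases Nat.lt_succ_iff_lt_or_eq.1 hj with h | rfl
      · simp only [hy' j h, hO' j h]
        exact hs.yO j h
      · simp only [Function.update_self]
        exact hxO
    · intro i j hij hj
      rcases Nat.lt_succ_iff_lt_or_eq.1 hj with h | rfl
      · simp only [hy' i (hij.trans h), hO' j h]
        exact hs.yy i j hij h
      · simp only [hy' i hij, Function.update_self]
        exact hFO (Or.inr ⟨i, hij, rfl⟩)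
  · simp only [Function.update_self]
    exact fun z hz => hFO (Or.inl hz)

lemma pick_list (h𝒰 : ∀ n, p0 ∈ (bvOmega XG (𝒰 n)).S) {s : St} (hs : Good 𝒰 p0 s) (r : ℕ)
    (F : ℕ → Set ℝ) (hF : ∀ i, (F i).Finite) (hFs : ∀ i, F i ⊆ s.p.A) :
    ∃ s', Good 𝒰 p0 s' ∧ Ext s s' ∧ s'.N = s.N + r ∧ ∀ i < r, F i ⊆ s'.O (s.N + i) := by
  induction r with
  | zero => exact ⟨s, hs, Ext.refl s, rfl, fun i hi => absurd hi (Nat.not_lt_zero i)⟩
  | succ r ih =>
    obtain ⟨s1, h1, h2, h3, h4⟩ := ih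
    obtain ⟨s2, h5, h6, h7, h8⟩ := pick_one h𝒰 h1 (hF r) ((hFs r).trans h2.le.1)
    refine ⟨s2, h5, h2.trans h6, by omega, fun i hi => ?_⟩
    rcases Nat.lt_succ_iff_lt_or_eq.1 hi with h | rfl
    · rw [h6.O _ (by omega)]
      exact h4 i h
    · rw [← h3]; exact h8

/-- one group of the selection -/
lemma pick_group (h𝒰 : ∀ n, p0 ∈ (bvOmega XG (𝒰 n)).S) {s : St} (hs : Good 𝒰 p0 s)
    {J : ℕ → Set ℝ} (hJo : ∀ k, IsOpen (J k)) (hJn : ∀ k, (J k).Nonempty) (m : ℕ)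
    {F : Set ℝ} (hF : F.Finite) (hFs : F ⊆ s.p.A) :
    ∃ s', Good 𝒰 p0 s' ∧ Ext s s' ∧ s.N < s'.N ∧ F ⊆ s'.O s.N ∧
      ∀ k < m, ∀ z ∈ Icc (0 : ℝ) 1, ∃ x ∈ J k, (∃ n ∈ Ico s.N s'.N, x ∈ s'.O n) ∧
        ∃ n ∈ Ico s.N s'.N, x + z ∈ s'.O n := by
  classical
  have hr : ∀ k, ∃ r : ℚ, (r : ℝ) ∈ J k := fun k =>
    (Rat.denseRange_cast (𝕜 := ℝ)).exists_mem_open (hJo k) (hJn k)
  choose r hr using hr
  obtain ⟨s1, g1, e1, n1, h1⟩ := pick_one h𝒰 hs hF hFs
  obtain ⟨s2, g2, e2, n2, h2⟩ := pick_list h𝒰 g1 m (fun i => {(r i : ℝ)})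
    (fun i => finite_singleton _) (fun i => singleton_subset_iff.2 (s1.p.hQ _))
  have hδ : ∀ k, ∃ K : ℕ, k < m → 0 < K ∧
      Metric.closedBall (r k : ℝ) (1 / K) ⊆ J k ∩ (s2.O (s1.N + k) : Set ℝ) := by
    intro k
    by_cases hk : k < m
    · have hmem : (r k : ℝ) ∈ J k ∩ (s2.O (s1.N + k) : Set ℝ) := ⟨hr k, h2 k hk (by simp)⟩
      obtain ⟨δ, hδ, hb⟩ := Metric.isOpen_iff.1 ((hJo k).inter (s2.O (s1.N + k)).isOpen) _ hmem
      obtain ⟨K, hK⟩ := exists_nat_one_div_lt hδ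
      refine ⟨K + 1, fun _ => ⟨Nat.succ_pos _, ?_⟩⟩
      refine (Metric.closedBall_subset_ball ?_).trans hb
      push_cast
      exact hK
    · exact ⟨0, fun h => absurd h hk⟩
  choose Ks hKs using hδ
  let K := ∑ k ∈ Finset.range m, Ks k + 1
  have hK0 : (0 : ℝ) < K := by positivity
  have hKle : ∀ k < m, Metric.closedBall (r k : ℝ) (1 / K) ⊆ J k ∩ (s2.O (s1.N + k) : Set ℝ) := by
    intro k hk
    refine (Metric.closedBall_subset_closedBall ?_).trans (hKs k hk).2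
    have h2 : Ks k ≤ ∑ k ∈ Finset.range m, Ks k :=
      Finset.single_le_sum (f := Ks) (fun _ _ => Nat.zero_le _) (Finset.mem_range.2 hk)
    have h3 : (Ks k : ℝ) ≤ K := by
      have : Ks k ≤ K := by omega
      exact_mod_cast this
    exact one_div_le_one_div_of_le (by exact_mod_cast (hKs k hk).1) h3
  obtain ⟨s3, g3, e3, n3, h3⟩ := pick_list h𝒰 g2 (m * (K + 1) + 1)
    (fun i => {((r (i / (K + 1)) + (i % (K + 1) : ℕ) / (K : ℚ) : ℚ) : ℝ)})
    (fun i => finite_singleton _) (fun i => singleton_subset_iff.2 (s2.p.hQ _))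
  refine ⟨s3, g3, (e1.trans e2).trans e3, by omega, ?_, ?_⟩
  · rw [e3.O _ (by omega), e2.O _ (by omega)]
    exact h1
  · intro k hk z hz
    set j := ⌊z * K⌋₊ with hj
    have hj1 : (j : ℝ) ≤ z * K := Nat.floor_le (mul_nonneg hz.1 hK0.le)
    have hj2 : z * K < j + 1 := Nat.lt_floor_add_one _
    have hjK : j ≤ K := by
      have : (j : ℝ) ≤ K := hj1.trans (by nlinarith [hz.2])
      exact_mod_cast this
    have hdiv : (k * (K + 1) + j) / (K + 1) = k := by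
      rw [Nat.mul_comm, Nat.mul_add_div (Nat.succ_pos K), Nat.div_eq_of_lt (by omega), Nat.add_zero]
    have hmod : (k * (K + 1) + j) % (K + 1) = j := by
      rw [Nat.mul_comm, Nat.mul_add_mod, Nat.mod_eq_of_lt (by omega)]
    have hlt : k * (K + 1) + j < m * (K + 1) + 1 := by
      have : (k + 1) * (K + 1) ≤ m * (K + 1) := Nat.mul_le_mul_right _ hk
      nlinarith
    have hmem := h3 (k * (K + 1) + j) hlt
    simp only [hdiv, hmod, singleton_subset_iff] at hmem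
    have hyext : (((r k + (j : ℕ) / (K : ℚ) : ℚ) : ℝ)) ∈ s3.O (s2.N + (k * (K + 1) + j)) := hmem
    push_cast at hyext
    have hx : (r k : ℝ) + j / K - z ∈ J k ∩ (s2.O (s1.N + k) : Set ℝ) := by
      apply hKle k hk
      rw [Metric.mem_closedBall, Real.dist_eq]
      have : (r k : ℝ) + j / K - z - r k = -((z * K - j) / K) := by field_simp; ring
      rw [this, abs_neg, abs_of_nonneg (div_nonneg (by linarith) hK0.le)]
      exact div_le_div_of_nonneg_right (by linarith) hK0.le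
    refine ⟨(r k : ℝ) + j / K - z, hx.1, ⟨s1.N + k, ⟨by omega, by omega⟩, ?_⟩,
      ⟨s2.N + (k * (K + 1) + j), ⟨by omega, by omega⟩, ?_⟩⟩
    · rw [e3.O _ (by omega)]
      exact hx.2
    · simp only [sub_add_cancel]
      exact hyext

/-- The selection decided by a condition. -/
theorem exists_selection (h𝒰 : ∀ n, p0 ∈ (bvOmega XG (𝒰 n)).S) :
    ∃ (q : Cond) (c : ℕ → Opens ℝ) (y : ℕ → ℝ) (a : ℕ → ℕ), p0 ≤ q ∧ StrictMono a ∧ a 0 = 0 ∧
      (∀ n, q ∈ (𝒰 n (c n)).S) ∧ (∀ n, y n ∈ q.A) ∧ (∀ n, y n ∉ c n) ∧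
      (∀ i j, i < j → y i ∈ c j) ∧
      Thick (fun m => ⋃ n ∈ Ico (a m) (a (m + 1)), (c n : Set ℝ)) ∧
      ∀ x ∈ q.A, ∃ m0, ∀ m ≥ m0, x ∈ ⋃ n ∈ Ico (a m) (a (m + 1)), (c n : Set ℝ) := by
  classical
  obtain ⟨b, hbc, hbe, hb⟩ := TopologicalSpace.exists_countable_basis ℝ
  have hbne : b.Nonempty := by
    obtain ⟨u, hu, -⟩ := hb.exists_subset_of_mem_open (mem_univ (0 : ℝ)) isOpen_univ
    exact ⟨u, hu⟩
  obtain ⟨J, hJ⟩ := hbc.exists_eq_range hbne
  have hJo : ∀ k, IsOpen (J k) := fun k => hb.isOpen (hJ ▸ mem_range_self k)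
  have hJn : ∀ k, (J k).Nonempty := by
    intro k
    rw [nonempty_iff_ne_empty]
    intro h
    exact hbe (h ▸ (hJ ▸ mem_range_self k))
  have hen : ∀ p : Cond, ∃ e : ℕ → ℝ, p.A = range e := fun p =>
    p.hA.exists_eq_range ⟨_, p.hQ 0⟩
  choose en hen using hen
  obtain ⟨f, hf0, hf1, hf2⟩ := step_seq (S := St × (ℕ → ℕ → ℝ))
    (fun m st => Good 𝒰 p0 st.1 ∧ ∀ j < m, ∀ i, st.2 j i ∈ st.1.p.A)
    (fun m st st' => Ext st.1 st'.1 ∧ st.1.N < st'.1.N ∧
      st'.2 = Function.update st.2 m (en st.1.p) ∧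
      (∀ j ≤ m, ∀ i ≤ m, st'.2 j i ∈ st'.1.O st.1.N) ∧
      ∀ k < m, ∀ z ∈ Icc (0 : ℝ) 1, ∃ x ∈ J k, (∃ n ∈ Ico st.1.N st'.1.N, x ∈ st'.1.O n) ∧
        ∃ n ∈ Ico st.1.N st'.1.N, x + z ∈ st'.1.O n)
    (⟨p0, 0, fun _ => ⊤, fun _ => 0⟩, fun _ _ => 0)
    ⟨⟨le_rfl, by simp, by simp, by simp, by simp⟩, by simp⟩ (by
    rintro m ⟨s, E⟩ ⟨hg, hE⟩
    let E' : ℕ → ℕ → ℝ := Function.update E m (en s.p)
    have hE' : ∀ j ≤ m, ∀ i, E' j i ∈ s.p.A := by
      intro j hj i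
      rcases hj.lt_or_eq with h | rfl
      · simp only [E', Function.update_of_ne h.ne]
        exact hE j h i
      · simp only [E', Function.update_self]
        rw [hen s.p]; exact mem_range_self i
    obtain ⟨s', g', e', n', h1, h2⟩ := pick_group h𝒰 hg hJo hJn m
      (F := (fun ji : ℕ × ℕ => E' ji.1 ji.2) '' (Iic m ×ˢ Iic m))
      (((finite_Iic m).prod (finite_Iic m)).image _) (by
        rintro _ ⟨⟨j, i⟩, ⟨hj, -⟩, rfl⟩
        exact hE' j hj i)
    refine ⟨(s', E'), ⟨g', fun j hj i => e'.le.1 (hE' j (Nat.lt_succ_iff.1 hj) i)⟩, e', n', rfl,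
      fun j hj i hi => h1 ⟨(j, i), ⟨hj, hi⟩, rfl⟩, h2⟩)
  have hmono : ∀ m, (f m).1.p ≤ (f (m + 1)).1.p := fun m => (hf2 m).1.le
  have ha : StrictMono fun m => (f m).1.N := strictMono_nat_of_lt_succ fun m => (hf2 m).2.1
  have hext : ∀ k l, k ≤ l → Ext (f k).1 (f l).1 := by
    intro k l hkl
    induction l, hkl using Nat.le_induction with
    | base => exact Ext.refl _
    | succ l hkl ih => exact ih.trans (hf2 l).1
  have hlt : ∀ n, n < (f (n + 1)).1.N := fun n => lt_of_lt_of_le (Nat.lt_succ_self n) (ha.id_le _)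
  let c : ℕ → Opens ℝ := fun n => (f (n + 1)).1.O n
  let y : ℕ → ℝ := fun n => (f (n + 1)).1.y n
  have hc : ∀ k n, n < (f k).1.N → (f k).1.O n = c n := by
    intro k n hn
    rcases le_total k (n + 1) with h | h
    · exact ((hext _ _ h).O n hn).symm
    · exact (hext _ _ h).O n (hlt n)
  have hy : ∀ k n, n < (f k).1.N → (f k).1.y n = y n := by
    intro k n hn
    rcases le_total k (n + 1) with h | h
    · exact ((hext _ _ h).y n hn).symm
    · exact (hext _ _ h).y n (hlt n)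
  have hle := le_lim (fun m => (f m).1.p) hmono
  have hE2 : ∀ k l, k < l → (f l).2 k = en (f k).1.p := by
    intro k l hkl
    induction l, hkl using Nat.le_induction with
    | base => rw [(hf2 k).2.2.1, Function.update_self]
    | succ l hkl ih =>
      rw [(hf2 l).2.2.1, Function.update_of_ne (by omega)]
      exact ih
  refine ⟨lim (fun m => (f m).1.p) hmono, c, y, fun m => (f m).1.N, ?_, ha, ?_, ?_, ?_, ?_, ?_, ?_, ?_⟩
  · have := (hf1 0).1.base
    exact this.trans (hle 0)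
  · simp only [hf0]
  · intro n
    exact (RO.isReg _).up ((hf1 (n + 1)).1.mem n (hlt n)) (hle (n + 1))
  · intro n
    exact (hle (n + 1)).1 ((hf1 (n + 1)).1.yA n (hlt n))
  · intro n
    exact (hf1 (n + 1)).1.yO n (hlt n)
  · intro i j hij
    have h1 := (hf1 (j + 1)).1.yy i j hij (hlt j)
    rw [hy _ _ (hij.trans (hlt j)), hc _ _ (hlt j)] at h1
    exact h1
  · refine ⟨fun m => isOpen_biUnion fun n _ => (c n).isOpen, fun I hIo ⟨x, hx⟩ => ?_⟩
    obtain ⟨u, hu, hxu, huI⟩ := hb.exists_subset_of_mem_open hx hIo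
    rw [hJ] at hu
    obtain ⟨k, rfl⟩ := hu
    refine ⟨k + 1, fun m hm z hz => ?_⟩
    obtain ⟨x, hx, ⟨n, hn, hxn⟩, n', hn', hxn'⟩ := (hf2 m).2.2.2.2 k hm z hz
    rw [hc _ _ hn.2] at hxn
    rw [hc _ _ hn'.2] at hxn'
    exact ⟨x, huI hx, mem_biUnion hn hxn, mem_biUnion hn' hxn'⟩
  · intro x hx
    obtain ⟨k, hk⟩ := mem_iUnion.1 hx
    simp only at hk
    rw [hen] at hk
    obtain ⟨i, rfl⟩ := hk
    refine ⟨max k i, fun m hm => ?_⟩
    have h1 := (hf2 m).2.2.2.1 k (le_trans (le_max_left _ _) hm) i (le_trans (le_max_right _ _) hm)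
    rw [hE2 k (m + 1) (by have := le_trans (le_max_left _ _) hm; omega),
      hc _ _ (hf2 m).2.1] at h1
    exact mem_biUnion ⟨le_rfl, (hf2 m).2.1⟩ h1

end Pool.Agent.H59.BGP
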